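import Pool.Agent.H80.PK.KStmts

/-!
Row K0I of the board `pkt`: injectivity on idempotents.
-/

set_option autoImplicit false

namespace Pool.PK

open Filter Topology

namespace K0IAux

theorem sim_refl {R : Type} [Ring R] (e : R) : Similar e e := ⟨1, isUnit_one, by simp⟩

theorem sim_symm {R : Type} [Ring R] {e f : R} (h : Similar e f) : Similar f e := by
  obtain ⟨u, hu, huv⟩ := h
  obtain ⟨v, rfl⟩ := hu
  refine ⟨(↑v⁻¹ : R), (v⁻¹).isUnit, ?_⟩
  have h1 : (↑v⁻¹ : R) * f = ↑v⁻¹ * (f * v) * ↑v⁻¹ := by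
    rw [mul_assoc (↑v⁻¹ : R) (f * v), mul_assoc f, Units.mul_inv, mul_one]
  rw [h1, ← huv, ← mul_assoc (↑v⁻¹ : R) (v : R), Units.inv_mul, one_mul]

theorem sim_trans {R : Type} [Ring R] {e f g : R} (h : Similar e f) (h' : Similar f g) :
    Similar e g := by
  obtain ⟨u, hu, huv⟩ := h
  obtain ⟨v, hv, hvw⟩ := h'
  refine ⟨v * u, hv.mul hu, ?_⟩
  rw [mul_assoc, huv, ← mul_assoc, hvw, mul_assoc]

theorem dev_cont {A : Type} [NormedRing A] : Continuous (dev : A → A) := by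
  unfold dev
  fun_prop

theorem dev_idem {A : Type} [Ring A] (e : A) (he : e * e = e) : dev e = 0 := by
  unfold dev
  rw [mul_sub, mul_one, he, sub_self, mul_zero]

theorem dev_map {A B : Type} [Ring A] [Ring B] (f : A →+* B) (x : A) : f (dev x) = dev (f x) := by
  unfold dev
  simp only [map_mul, map_sub, map_one, map_ofNat]

theorem ball {A : Type} [NormedRing A] (e : A) (he : e * e = e) :
    ∃ δ : ℝ, 0 < δ ∧ ∀ z : A, ‖z - e‖ < δ → ‖dev z‖ < 1 := by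
  have h1 : Continuous (fun z : A => ‖dev z‖) := dev_cont.norm
  have h2 : ‖dev e‖ < 1 := by rw [dev_idem e he, norm_zero]; exact one_pos
  have h3 : ∀ᶠ z in 𝓝 e, ‖dev z‖ < 1 := h1.continuousAt.eventually (gt_mem_nhds h2)
  obtain ⟨δ, hδ, hδ2⟩ := Metric.eventually_nhds_iff.mp h3
  refine ⟨δ, hδ, fun z hz => hδ2 ?_⟩
  rw [dist_eq_norm]
  exact hz

theorem small_pow {A : Type} [NormedRing A] (z : A) (hz : ‖dev z‖ < 1) :
    Tendsto (fun k : ℕ => (dev z) ^ k) atTop (𝓝 0) :=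
  tendsto_pow_atTop_nhds_zero_of_norm_lt_one hz

/-- paths -/
theorem path (h2 : HFIStmt) (h4 : HFCStmt) (h5 : PTHStmt) {A : Type} [NormedRing A]
    [NormedAlgebra ℂ A] [CompleteSpace A] (q : ℝ → A) (hq : Continuous q)
    (hn : ∀ t ∈ Set.Icc (0 : ℝ) 1, Tendsto (fun k : ℕ => (dev (q t)) ^ k) atTop (𝓝 0)) :
    Similar (hfc (q 0)) (hfc (q 1)) := by
  refine h5 A (fun t => hfc (q t)) ?_ ?_
  · intro t ht
    exact ((h4 A (q t) (hn t ht)).comp hq.continuousAt).continuousWithinAt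
  · intro t ht
    exact h2 A (q t) (hn t ht)

/-- the segment -/
theorem seg_norm {A : Type} [NormedRing A] [NormedAlgebra ℂ A] (x z c : A) (δ : ℝ)
    (hx : ‖x - c‖ < δ) (hz : ‖z - c‖ < δ) (t : ℝ) (ht : t ∈ Set.Icc (0 : ℝ) 1) :
    ‖((1 - t : ℝ) : ℂ) • x + ((t : ℝ) : ℂ) • z - c‖ < δ := by
  have h1 : ((1 - t : ℝ) : ℂ) • x + ((t : ℝ) : ℂ) • z - c =
      ((1 - t : ℝ) : ℂ) • (x - c) + ((t : ℝ) : ℂ) • (z - c) := by
    push_cast
    module
  rw [h1]
  refine lt_of_le_of_lt (norm_add_le _ _) ?_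
  rw [norm_smul, norm_smul, Complex.norm_real, Complex.norm_real, Real.norm_eq_abs,
    Real.norm_eq_abs, abs_of_nonneg (sub_nonneg.mpr ht.2), abs_of_nonneg ht.1]
  rcases eq_or_lt_of_le ht.1 with h | h
  · rw [← h]
    simpa using hx
  · have h3 : (1 - t) * ‖x - c‖ ≤ (1 - t) * δ :=
      mul_le_mul_of_nonneg_left hx.le (sub_nonneg.mpr ht.2)
    have h4 : t * ‖z - c‖ < t * δ := mul_lt_mul_of_pos_left hz h
    linarith

theorem seg_cont {A : Type} [NormedRing A] [NormedAlgebra ℂ A] (x z : A) :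
    Continuous (fun t : ℝ => ((1 - t : ℝ) : ℂ) • x + ((t : ℝ) : ℂ) • z) := by
  fun_prop

/-- an idempotent is similar to the idempotents of near elements -/
theorem near (h2 : HFIStmt) (h3 : HFFStmt) (h4 : HFCStmt) (h5 : PTHStmt) {A : Type}
    [NormedRing A] [NormedAlgebra ℂ A] [CompleteSpace A] (e z : A) (he : e * e = e) (δ : ℝ)
    (hδ : 0 < δ) (hδ2 : ∀ z : A, ‖z - e‖ < δ → ‖dev z‖ < 1) (hz : ‖z - e‖ < δ) :
    Similar e (hfc z) := by
  have h := path h2 h4 h5 (fun t : ℝ => ((1 - t : ℝ) : ℂ) • e + ((t : ℝ) : ℂ) • z)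
    (seg_cont e z) (fun t ht => small_pow _ (hδ2 _ (seg_norm e z e δ (by simpa using hδ) hz t ht)))
  simp only [sub_zero, Complex.ofReal_one, one_smul, Complex.ofReal_zero, zero_smul, add_zero,
    sub_self, zero_add] at h
  rw [h3 A e he] at h
  exact h

end K0IAux

open K0IAux

theorem K0I (h1 : INVStmt) (h2 : HFIStmt) (h3 : HFFStmt) (h4 : HFCStmt) (h5 : PTHStmt) :
    K0IStmt := by
  intro A B U _ _ _ _ _ _ _ _ ι φ hRS e f he hf hsim
  have hRS' := hRS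
  obtain ⟨hφ, hι, hφι, hnil⟩ := hRS'
  obtain ⟨u, hu, huv⟩ := hsim
  obtain ⟨u, rfl⟩ := hu
  have hφf : φ f * φ f = φ f := by rw [← map_mul, hf]
  obtain ⟨δ, hδ, hδ2⟩ := ball (φ f) hφf
  -- step 1
  have hF : ∀ᶠ v in 𝓝 (u : B), IsUnit v ∧ ‖v * φ e * Ring.inverse v - φ f‖ < δ := by
    have e1 : ∀ᶠ v in 𝓝 (u : B), IsUnit v := Units.nhds u
    have e2 : ContinuousAt (fun v : B => ‖v * φ e * Ring.inverse v - φ f‖) (u : B) := by
      have := NormedRing.inverse_continuousAt u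
      exact (((continuousAt_id.mul continuousAt_const).mul this).sub continuousAt_const).norm
    have e3 : ‖(u : B) * φ e * Ring.inverse (u : B) - φ f‖ < δ := by
      rw [huv, Ring.inverse_unit, mul_assoc, Units.mul_inv, mul_one, sub_self, norm_zero]
      exact hδ
    exact e1.and (e2.eventually (gt_mem_nhds e3))
  obtain ⟨w, hw1, hw2⟩ : ∃ w : U, IsUnit (φ (ι w)) ∧
      ‖φ (ι w) * φ e * Ring.inverse (φ (ι w)) - φ f‖ < δ := by
    obtain ⟨s, hs, hso, hus⟩ := eventually_nhds_iff.mp hF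
    obtain ⟨w, hw⟩ := hφι.exists_mem_open hso ⟨_, hus⟩
    exact ⟨w, hs _ hw⟩
  obtain ⟨a, ha⟩ := h1 A B U ι φ hRS w hw1
  have he1 : ((a : A) * e * ↑a⁻¹) * ((a : A) * e * ↑a⁻¹) = (a : A) * e * ↑a⁻¹ := by
    calc ((a : A) * e * ↑a⁻¹) * ((a : A) * e * ↑a⁻¹) =
        (a : A) * e * (↑a⁻¹ * a) * e * ↑a⁻¹ := by simp only [mul_assoc]
      _ = (a : A) * (e * e) * ↑a⁻¹ := by rw [Units.inv_mul, mul_one, mul_assoc (a : A) e e]
      _ = (a : A) * e * ↑a⁻¹ := by rw [he]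
  have hs1 : Similar e ((a : A) * e * ↑a⁻¹) := ⟨a, a.isUnit, by
    rw [mul_assoc ((a : A) * e), Units.inv_mul, mul_one]⟩
  set e1 := (a : A) * e * ↑a⁻¹ with he1d
  have hφe1 : ‖φ e1 - φ f‖ < δ := by
    have h6 : φ e1 = φ (ι w) * φ e * Ring.inverse (φ (ι w)) := by
      have h7 : φ (ι w) = ((Units.map (φ : A →* B) a : Bˣ) : B) := by
        rw [← ha]
        rfl
      rw [h7, Ring.inverse_unit, he1d, map_mul, map_mul, ← map_inv]
      rfl
    rw [h6]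
    exact hw2
  -- step 2
  obtain ⟨δ1, hδ1, hδ12⟩ := ball e1 he1
  obtain ⟨δ3, hδ3, hδ32⟩ := ball f hf
  have hx : ∃ x : U, ‖ι x - e1‖ < δ1 ∧ ‖φ (ι x) - φ f‖ < δ := by
    have e2 : ∀ᶠ y in 𝓝 e1, ‖y - e1‖ < δ1 ∧ ‖φ y - φ f‖ < δ := by
      apply Filter.Eventually.and
      · have : ContinuousAt (fun y : A => ‖y - e1‖) e1 := by fun_prop
        exact this.eventually (gt_mem_nhds (by simpa using hδ1))
      · have : ContinuousAt (fun y : A => ‖φ y - φ f‖) e1 := by fun_prop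
        exact this.eventually (gt_mem_nhds hφe1)
    obtain ⟨s, hs, hso, hus⟩ := eventually_nhds_iff.mp e2
    obtain ⟨x, hx⟩ := hι.exists_mem_open hso ⟨_, hus⟩
    exact ⟨x, hs _ hx⟩
  have hz : ∃ z : U, ‖ι z - f‖ < δ3 ∧ ‖φ (ι z) - φ f‖ < δ := by
    have e2 : ∀ᶠ y in 𝓝 f, ‖y - f‖ < δ3 ∧ ‖φ y - φ f‖ < δ := by
      apply Filter.Eventually.and
      · have : ContinuousAt (fun y : A => ‖y - f‖) f := by fun_prop
        exact this.eventually (gt_mem_nhds (by simpa using hδ3))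
      · have : ContinuousAt (fun y : A => ‖φ y - φ f‖) f := by fun_prop
        exact this.eventually (gt_mem_nhds (by simpa using hδ))
    obtain ⟨s, hs, hso, hus⟩ := eventually_nhds_iff.mp e2
    obtain ⟨x, hx⟩ := hι.exists_mem_open hso ⟨_, hus⟩
    exact ⟨x, hs _ hx⟩
  obtain ⟨x, hx1, hx2⟩ := hx
  obtain ⟨z, hz1, hz2⟩ := hz
  -- steps 3, 4
  have s2 : Similar e1 (hfc (ι x)) := near h2 h3 h4 h5 e1 (ι x) he1 δ1 hδ1 hδ12 hx1
  have s3 : Similar f (hfc (ι z)) := near h2 h3 h4 h5 f (ι z) hf δ3 hδ3 hδ32 hz1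
  have s4 : Similar (hfc (ι x)) (hfc (ι z)) := by
    have h := path h2 h4 h5 (fun t : ℝ => ((1 - t : ℝ) : ℂ) • ι x + ((t : ℝ) : ℂ) • ι z)
      (seg_cont _ _) (fun t ht => by
        have e1 : ((1 - t : ℝ) : ℂ) • ι x + ((t : ℝ) : ℂ) • ι z =
            ι (((1 - t : ℝ) : ℂ) • x + ((t : ℝ) : ℂ) • z) := by
          rw [map_add, map_smul, map_smul]
        rw [e1]
        have e2 : dev (ι (((1 - t : ℝ) : ℂ) • x + ((t : ℝ) : ℂ) • z)) =
            ι (dev (((1 - t : ℝ) : ℂ) • x + ((t : ℝ) : ℂ) • z)) :=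
          (dev_map (ι : U →+* A) _).symm
        rw [e2]
        apply hnil
        have e3 : φ (ι (dev (((1 - t : ℝ) : ℂ) • x + ((t : ℝ) : ℂ) • z))) =
            dev (((1 - t : ℝ) : ℂ) • φ (ι x) + ((t : ℝ) : ℂ) • φ (ι z)) := by
          rw [← e2, ← e1]
          have e4 := dev_map (φ : A →+* B) (((1 - t : ℝ) : ℂ) • ι x + ((t : ℝ) : ℂ) • ι z)
          have e5 : (φ : A →+* B) (dev (((1 - t : ℝ) : ℂ) • ι x + ((t : ℝ) : ℂ) • ι z)) =
              φ (dev (((1 - t : ℝ) : ℂ) • ι x + ((t : ℝ) : ℂ) • ι z)) := rfl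
          rw [← e5, e4]
          congr 1
          change φ (((1 - t : ℝ) : ℂ) • ι x + ((t : ℝ) : ℂ) • ι z) = _
          rw [map_add, map_smul, map_smul]
        rw [e3]
        exact small_pow _ (hδ2 _ (seg_norm _ _ _ δ hx2 hz2 t ht)))
    simp only [sub_zero, Complex.ofReal_one, one_smul, Complex.ofReal_zero, zero_smul, add_zero,
      sub_self, zero_add] at h
    exact h
  exact sim_trans hs1 (sim_trans s2 (sim_trans s4 (sim_symm s3)))

end Pool.PK
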